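import Pool.Agent.L7h26.TN.Stm

/-!
# Project TN, part CNT
-/

set_option autoImplicit false

namespace Pool.Agent.L7h50.TN

open Pool.Agent.L7h26.TN

/-- Three points in a short interval are impossible. -/
lemma three (hG : S_GAP) (s T Z : ℕ) (hT : 0 < T) (hTs : T < s) (hZ : 1 ≤ Z) (n1 n2 n3 : ℕ)
    (h1 : Z ≤ n1) (h12 : n1 < n2) (h23 : n2 < n3)
    (e1 : ∃ y : ℕ, y ^ 2 = s * T * (2 * n1 - 1) ^ 2 + s * (9 * s - T))
    (e2 : ∃ y : ℕ, y ^ 2 = s * T * (2 * n2 - 1) ^ 2 + s * (9 * s - T))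
    (e3 : ∃ y : ℕ, y ^ 2 = s * T * (2 * n3 - 1) ^ 2 + s * (9 * s - T))
    (hd : 3 * s * (n3 - n1) ≤ Z) : False := by
  obtain ⟨y1, e1⟩ := e1
  obtain ⟨y2, e2⟩ := e2
  obtain ⟨y3, e3⟩ := e3
  have hs : 0 < s := by omega
  obtain ⟨u, hu⟩ : ∃ u : ℕ, 9 * s = T + u := ⟨9 * s - T, by omega⟩
  have hu0 : 0 < u := by omega
  have hsub : 9 * s - T = u := by omega
  rw [hsub] at e1 e2 e3
  obtain ⟨m1, hm1⟩ : ∃ m : ℕ, 2 * n1 = m + 1 := ⟨2 * n1 - 1, by omega⟩
  obtain ⟨m2, hm2⟩ : ∃ m : ℕ, 2 * n2 = m + 1 := ⟨2 * n2 - 1, by omega⟩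
  obtain ⟨m3, hm3⟩ : ∃ m : ℕ, 2 * n3 = m + 1 := ⟨2 * n3 - 1, by omega⟩
  rw [hm1] at e1
  rw [hm2] at e2
  rw [hm3] at e3
  simp only [Nat.add_sub_cancel] at e1 e2 e3
  obtain ⟨k, hk⟩ : ∃ k : ℕ, n3 = n1 + k := ⟨n3 - n1, by omega⟩
  have hk' : n3 - n1 = k := by omega
  rw [hk'] at hd
  have hG' := hG ((s : ℤ) * T) ((s : ℤ) * u) m1 m2 m3 y1 y2 y3 (by positivity) (by positivity)
    (by have : 0 < m1 := by omega
        exact_mod_cast this)
    (by have : m1 < m2 := by omega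
        exact_mod_cast this)
    (by have : m2 < m3 := by omega
        exact_mod_cast this)
    (by positivity) (by positivity) (by positivity)
    (by exact_mod_cast e1) (by exact_mod_cast e2) (by exact_mod_cast e3)
  have hm13 : (m3 : ℤ) - m1 = 2 * k := by
    have h1 : (2 : ℤ) * n1 = m1 + 1 := by exact_mod_cast hm1
    have h3 : (2 : ℤ) * n3 = m3 + 1 := by exact_mod_cast hm3
    have h4 : (n3 : ℤ) = n1 + k := by exact_mod_cast hk
    linarith
  rw [hm13] at hG'
  have hu9 : (u : ℤ) ≤ 9 * s := by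
    have : u ≤ 9 * s := by omega
    exact_mod_cast this
  have hdz : (3 : ℤ) * s * k ≤ Z := by exact_mod_cast hd
  have hmz : (Z : ℤ) ≤ m1 := by
    have : Z ≤ m1 := by omega
    exact_mod_cast this
  have hZ' : (1 : ℤ) ≤ Z := by exact_mod_cast hZ
  have hs' : (0 : ℤ) ≤ s := by positivity
  have hk0 : (0 : ℤ) ≤ k := by positivity
  have h5 : (s : ℤ) * u * (2 * k) ^ 2 ≤ 4 * (3 * s * k) ^ 2 := by
    have : (s : ℤ) * u ≤ s * (9 * s) := mul_le_mul_of_nonneg_left hu9 hs'
    calc (s : ℤ) * u * (2 * k) ^ 2 ≤ (s * (9 * s)) * (2 * k) ^ 2 :=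
          mul_le_mul_of_nonneg_right this (by positivity)
      _ = 4 * (3 * s * k) ^ 2 := by ring
  have h6 : ((3 : ℤ) * s * k) ^ 2 ≤ Z ^ 2 := pow_le_pow_left₀ (by positivity) hdz 2
  have h7 : (Z : ℤ) ^ 2 ≤ m1 ^ 2 := pow_le_pow_left₀ (by positivity) hmz 2
  have h8 : (1 : ℤ) ≤ (Z : ℤ) ^ 2 := one_le_pow₀ hZ'
  linarith

/-- Part CNT of project TN. -/
theorem s_CNT (hG : S_GAP) : S_CNT := by
  classical
  intro s T Z X hT hTs hZ hZX
  have hs : 0 < s := by omega
  set P : ℕ → Prop := fun n => ∃ y : ℕ, y ^ 2 = s * T * (2 * n - 1) ^ 2 + s * (9 * s - T) with hP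
  set A : Finset ℕ := (Finset.Icc Z X).filter P with hA
  have hcard : Nat.card {n : ℕ // Z ≤ n ∧ n ≤ X ∧ P n} = A.card := by
    apply Nat.subtype_card
    intro n
    simp [hA, and_assoc]
  rw [hcard]
  set L : ℕ := Z / (3 * s) + 1 with hL
  set M : ℕ := (X - Z) / L with hM
  have hL0 : 0 < L := by rw [hL]; exact Nat.succ_pos _
  have h1 : A.card ≤ 2 * (Finset.range (M + 1)).card := by
    apply Finset.card_le_mul_card_image_of_maps_to (f := fun n => (n - Z) / L)
    · intro n hn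
      simp only [hA, Finset.mem_filter, Finset.mem_Icc] at hn
      rw [Finset.mem_range]
      have : (n - Z) / L ≤ (X - Z) / L := Nat.div_le_div_right (by omega)
      omega
    · intro k hk
      by_contra hlt
      push Not at hlt
      obtain ⟨x, hx, y, hy, z, hz, hxy, hxz, hyz⟩ := Finset.two_lt_card.1 hlt
      have H : ∀ u v w : ℕ, u ∈ A.filter (fun n => (n - Z) / L = k) →
          v ∈ A.filter (fun n => (n - Z) / L = k) → w ∈ A.filter (fun n => (n - Z) / L = k) →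
          u < v → v < w → False := by
        intro u v w hu hv hw huv hvw
        simp only [hA, Finset.mem_filter, Finset.mem_Icc] at hu hv hw
        apply three hG s T Z hT hTs hZ u v w hu.1.1.1 huv hvw hu.1.2 hv.1.2 hw.1.2
        have a1 : (w - Z) < (k + 1) * L := by
          rw [← Nat.div_lt_iff_lt_mul hL0]; omega
        have a2 : k * L ≤ u - Z := by
          rw [← Nat.le_div_iff_mul_le hL0]; omega
        have a3 : w - u ≤ L - 1 := by
          have : (k + 1) * L = k * L + L := by ring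
          omega
        have a4 : L - 1 = Z / (3 * s) := by omega
        rw [a4] at a3
        calc 3 * s * (w - u) ≤ 3 * s * (Z / (3 * s)) := Nat.mul_le_mul_left _ a3
          _ ≤ Z := Nat.mul_div_le _ _
      rcases lt_or_gt_of_ne hxy with a | a <;> rcases lt_or_gt_of_ne hxz with b | b <;>
        rcases lt_or_gt_of_ne hyz with c | c
      · exact H x y z hx hy hz a c
      · exact H x z y hx hz hy b c
      · omega
      · exact H z x y hz hx hy b a
      · exact H y x z hy hx hz a b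
      · omega
      · exact H y z x hy hz hx c b
      · exact H z y x hz hy hx c a
  rw [Finset.card_range] at h1
  have h2 : M * L ≤ X := by
    have h := Nat.div_mul_le_self (X - Z) L
    rw [hM]
    exact h.trans (Nat.sub_le _ _)
  have h3 : Z ≤ L * (3 * s) := by
    have := Nat.lt_div_mul_add (a := Z) (b := 3 * s) (by omega)
    have e : L * (3 * s) = Z / (3 * s) * (3 * s) + 3 * s := by rw [hL]; ring
    omega
  have hZr : (0 : ℝ) < Z := by exact_mod_cast (by omega : 0 < Z)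
  rw [le_div_iff₀ hZr]
  have h4 : A.card * Z ≤ 20 * s * X := by
    have b1 : M * Z ≤ 3 * s * X := by
      calc M * Z ≤ M * (L * (3 * s)) := Nat.mul_le_mul_left _ h3
        _ = 3 * s * (M * L) := by ring
        _ ≤ 3 * s * X := Nat.mul_le_mul_left _ h2
    have b2 : Z ≤ s * X := by nlinarith
    calc A.card * Z ≤ (2 * (M + 1)) * Z := Nat.mul_le_mul_right _ h1
      _ = 2 * (M * Z) + 2 * Z := by ring
      _ ≤ 2 * (3 * s * X) + 2 * (s * X) := by omega
      _ ≤ 20 * s * X := by nlinarith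
  exact_mod_cast h4

end Pool.Agent.L7h50.TN
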